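import Pool.Agent.V11296.EA6

/-!
Arbitrary functions of the prime factors of the values of the quadratic polynomials
`f(n) = A n^2 + B n + C` whose discriminant is one of `-3, -4, -7, -8, -11, -19, -43, -67, -163`, in all
arithmetic progressions: for each prime factor `p` of `f(n)` the value may depend in an arbitrary way
on `p` and on that one of the two prime elements above `p` in `ℤ[ω]` which divides `A n + β + ω`, where
`A f(n) = N(A n + β + ω)`; joint distribution with all class functions of these prime elements.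

The starting files have the cancellation theorems `W251.EG.twG`, `W251.EG.tsG` for products
`g₁(d) g₂(d')` over the factorisations `f(n) = d d'`, for functions `g₁`, `g₂` of integers, and the
bilinear estimate `W251.EG.mainyG` behind them. Our `ArbitraryPrimeFunctions` (problem MP_484c84_nt) has
the case of the nine polynomials `n^2 + t n + c`.
-/

set_option autoImplicit false

namespace Pool.Agent.Results.MP_d639b3_nt.FunctionsOfPrimeElements

open Finset Filter

open scoped Classical in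
/-- the set of the positive integers `X` with `P X` has logarithmic density `0` -/
def LogNull (P : ℕ → Prop) : Prop :=
  Tendsto (fun Z : ℕ => (∑ X ∈ (Icc 1 Z).filter P, 1 / (X : ℝ)) / Real.log Z) atTop (nhds 0)

/-- the nine pairs `(t, c)` with `t` in `{0, 1}` and `x^2+tx+c` of discriminant `-4`, `-8`, `-3`,
`-7`, `-11`, `-19`, `-43`, `-67`, `-163` -/
def nine : List (ℕ × ℕ) :=
  [(0, 1), (0, 2), (1, 1), (1, 2), (1, 3), (1, 5), (1, 11), (1, 17), (1, 41)]

/-- the function `g(x + y ω) = g x y` on `ℤ[ω]`, where `ω^2 = t ω - c`, satisfies `g(u z) = g(z)` for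
the units `u` -/
def UnitInvariant {A : Type} (t c : ℕ) (g : ℤ → ℤ → A) : Prop :=
  ∀ a b x y : ℤ, a ^ 2 + t * a * b + c * b ^ 2 = 1 →
    g (a * x - c * b * y) (a * y + b * x + t * b * y) = g x y

/-- `E(x + y ω) = E x y` is a function on the residue classes modulo `m` of `ℤ[ω]`, invariant under
the units -/
structure ClassFunction {A : Type} (t c m : ℕ) (E : ℤ → ℤ → A) : Prop where
  pos : 1 ≤ m
  per : ∀ x y u v : ℤ, x ≡ u [ZMOD m] → y ≡ v [ZMOD m] → E x y = E u v
  unit : UnitInvariant t c E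

open scoped Classical in
/-- for every proper subgroup `B` of `A` and every `M`, the primes `p = N(π)`, `π ≡ 1 mod M`, with
`g(π) - g(π̄) ∉ B` have positive lower density -/
def Generic {A : Type} [AddCommGroup A] (t c : ℕ) (g : ℤ → ℤ → A) : Prop :=
  ∀ B : AddSubgroup A, B ≠ ⊤ → ∀ M : ℕ, 1 ≤ M → ∃ δ : ℝ, 0 < δ ∧ ∃ N₀ : ℕ, ∀ N : ℕ, N₀ ≤ N →
    δ * N ≤ ∑ p ∈ (Icc 1 N).filter (fun p : ℕ => p.Prime ∧ ∃ x y : ℤ, x ≡ 1 [ZMOD M] ∧
      y ≡ 0 [ZMOD M] ∧ x ^ 2 + t * x * y + c * y ^ 2 = p ∧ g x y - g (x + t * y) (-y) ∉ B),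
      Real.log p

/-- `z = x + y ω` has norm `p` and divides `ν + ω` -/
def Above (t c ν p : ℕ) (z : ℤ × ℤ) : Prop :=
  z.1 ^ 2 + t * z.1 * z.2 + c * z.2 ^ 2 = p ∧ (p : ℤ) ∣ z.1 - ν * z.2

open scoped Classical in
/-- the value `g(π)` for the elements `π` of norm `p` which divide `ν + ω` (`0` if there are none;
for a prime factor `p` of `ν^2+tν+c` there is one, and it is unique up to units) -/
noncomputable def value {A : Type} [AddCommGroup A] (t c : ℕ) (g : ℤ → ℤ → A) (ν p : ℕ) : A :=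
  if h : ∃ z : ℤ × ℤ, Above t c ν p z then g h.choose.1 h.choose.2 else 0

open scoped Classical in
/-- the value `g(π̄)` for the elements `π` of norm `p` which divide `ν + ω` -/
noncomputable def conjValue {A : Type} [AddCommGroup A] (t c : ℕ) (g : ℤ → ℤ → A) (ν p : ℕ) : A :=
  if h : ∃ z : ℤ × ℤ, Above t c ν p z then g (h.choose.1 + t * h.choose.2) (-h.choose.2) else 0

/-- the sum of `τ - g(π̄)` over the prime factors of `d` and of `g(π)` over the prime factors of `d'`,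
with multiplicity, where `π` is the prime element above `p` dividing `ν + ω` -/
noncomputable def stat {A : Type} [AddCommGroup A] (t c : ℕ) (g : ℤ → ℤ → A) (τ : A) (ν d d' : ℕ) :
    A :=
  (d.primeFactorsList.map (fun p => τ - conjValue t c g ν p)).sum +
    (d'.primeFactorsList.map (value t c g ν)).sum

/-- the subgroup of `A` generated by `τ` and by all `E(z) + E(w) - E(z w)`, for `z = x + y ω`,
`w = u + v ω` of norms prime to `m` -/
def defects {A : Type} [AddCommGroup A] (t c m : ℕ) (E : ℤ → ℤ → A) (τ : A) : AddSubgroup A :=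
  AddSubgroup.closure {g | ∃ x y u v : ℤ,
    IsCoprime (x ^ 2 + t * x * y + c * y ^ 2) (m : ℤ) ∧
    IsCoprime (u ^ 2 + t * u * v + c * v ^ 2) (m : ℤ) ∧
    g = E x y + E u v - E (x * u - c * y * v) (x * v + y * u + t * y * v)} ⊔
  AddSubgroup.zmultiples τ

open scoped Classical in
/-- the pairs `(d, d')` of positive integers with `d d' = A n^2 + B n + C` for some `n ≡ u mod q` with
the property `P n d d'`, with `d ≡ r mod q`, `s₁ X < d ≤ s₂ X`, `s₃ X < d' ≤ s₄ X` -/
noncomputable def pairs (A B C q u r : ℕ) (s₁ s₂ s₃ s₄ : ℝ) (X : ℕ) (P : ℕ → ℕ → ℕ → Prop) :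
    Finset (ℕ × ℕ) :=
  ((Icc 1 ⌊s₂ * X⌋₊) ×ˢ (Icc 1 ⌊s₄ * X⌋₊)).filter (fun p => s₁ * X < (p.1 : ℝ) ∧
    s₃ * X < (p.2 : ℝ) ∧ p.1 ≡ r [MOD q] ∧
    ∃ n : ℕ, p.1 * p.2 = A * n ^ 2 + B * n + C ∧ n ≡ u [MOD q] ∧ P n p.1 p.2)

/-- Let `f(n) = A n^2 + B n + C` with integers `A ≥ 1`, `B, C ≥ 0` have the discriminant of `x^2+tx+c`,
one of the nine polynomials (every quadratic polynomial with one of these discriminants and with a
positive leading coefficient becomes of this form after a shift of the variable), let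
`B = 2 β + t` and `ω^2 = t ω - c`; then `A f(n)` is the norm of `A n + β + ω`. Let `E` be a function on
the residue classes of `ℤ[ω]` modulo `m`, and `g` an arbitrary function on `ℤ[ω]`, both invariant under
the units, with values in finite abelian groups `A₁`, `A₂`, and let `τ₁`, `τ₂` be in `A₁`, `A₂`.
Suppose that `A₁` is generated by `τ₁` and the `E(z) + E(w) - E(z w)` for `z`, `w` prime to `m`, and
that `g` is generic: for every proper subgroup `S` of `A₂` and every `M` the primes `p = N(π)`,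
`π ≡ 1 mod M`, with `g(π) - g(π̄) ∉ S` have positive lower density. For a factorisation `f(n) = d d'`
let `S₁` be the sum of `E(π)` over the prime factors `p` of `d'` and of `τ₁ - E(π̄)` over those of `d`,
with multiplicity, where `π` is the prime element above `p` which divides `A n + β + ω`, and let `S₂`
be defined in the same way by `g` and `τ₂`.

Then for all `b₁` in `A₁`, `b₂` in `A₂`, all `q ≥ 1`, `u`, `r`, all `0 ≤ s₁ < s₂`, `0 ≤ s₃ < s₄`, all
`ε > 0` and all `X` outside a set of logarithmic density `0`, the number of the factorisations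
`f(n) = d d'` with `n ≡ u mod q`, `d ≡ r mod q`, `s₁ X < d ≤ s₂ X`, `s₃ X < d' ≤ s₄ X`, `S₁ = b₁` and
`S₂ = b₂` differs from `1 / (|A₁| |A₂|)` times the number of all these factorisations by at most
`ε X`.

For example, `A₁ = (ℤ/k)^2`, `m = 1`, `E = (0, 1)`, `τ₁ = (1, 1)` give `S₁ = (Ω(d), Ω(d')) mod k`. -/
theorem result (t c : ℕ) (htc : (t, c) ∈ nine) (A B C β : ℕ) (hA : 1 ≤ A)
    (hdisc : B ^ 2 + 4 * c = t ^ 2 + 4 * A * C) (hβ : B = 2 * β + t)
    (A₁ A₂ : Type) [AddCommGroup A₁] [AddCommGroup A₂]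
    [Finite A₁] [Finite A₂] (m : ℕ) (E : ℤ → ℤ → A₁) (hE : ClassFunction t c m E) (τ₁ : A₁)
    (hfull : defects t c m E τ₁ = ⊤)
    (g : ℤ → ℤ → A₂) (hg : UnitInvariant t c g) (hgen : Generic t c g) (τ₂ : A₂)
    (b₁ : A₁) (b₂ : A₂) (q u r : ℕ) (hq : 1 ≤ q)
    (s₁ s₂ s₃ s₄ : ℝ) (hs₁ : 0 ≤ s₁) (hs₁₂ : s₁ < s₂) (hs₃ : 0 ≤ s₃) (hs₃₄ : s₃ < s₄)
    (ε : ℝ) (hε : 0 < ε) :
    LogNull (fun X : ℕ => ε * X <
      |((pairs A B C q u r s₁ s₂ s₃ s₄ X (fun n d d' =>
          stat t c E τ₁ (A * n + β) d d' = b₁ ∧ stat t c g τ₂ (A * n + β) d d' = b₂)).card : ℝ) -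
        1 / ((Nat.card A₁ : ℝ) * Nat.card A₂) *
          ((pairs A B C q u r s₁ s₂ s₃ s₄ X (fun _ _ _ => True)).card : ℝ)|) := by
  classical
  obtain ⟨f, χ, hF⟩ := Pool.Agent.W251.EG.fd9 t c htc
  have ht := Pool.Agent.W251.EG.t_le hF
  have hc := Pool.Agent.W251.EG.c_pos hF
  have h : Pool.Agent.V11296.CZ.Rc t c m E := ⟨hE.pos, hE.per, hE.unit⟩
  have hgen' : Pool.Agent.V11296.DA.Gen t c g := by
    intro B hB M hM
    obtain ⟨δ, hδ, N₀, hN₀⟩ := hgen B hB M hM
    exact ⟨δ, hδ, N₀, hN₀⟩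
  have h7 := Pool.Agent.V11296.EA.wnV_U (τ₁ := τ₁) (τ₂ := τ₂) hF h hg hgen' hfull hA hβ hdisc
    (Pool.Agent.V11296.EA.kap t c A β E τ₁ + b₁, Pool.Agent.V11296.EA.kap t c A β g τ₂ + b₂) hq u
    r s₁ s₂ s₃ s₄ hs₁ hs₁₂ hs₃ hs₃₄ ε hε
  refine Pool.Agent.TH890.DV.LogNull.of_ev 0 (fun X _ hX => ?_) h7
  refine lt_of_lt_of_le hX (le_of_eq ?_)
  rw [Pool.Agent.V11296.EA.card_dv]
  have e1 : pairs A B C q u r s₁ s₂ s₃ s₄ X (fun _ _ _ => True) =
      Pool.Agent.W78.EG.SV (A : ℤ) (B : ℤ) (C : ℤ) q u r s₁ s₂ s₃ s₄ X := by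
    ext p
    unfold pairs Pool.Agent.W78.EG.SV
    rw [mem_filter, mem_filter]
    refine and_congr_right fun _ => ?_
    constructor
    · rintro ⟨h1, h2, h3, n, h4, h5, _⟩
      exact ⟨h1, h2, n, by exact_mod_cast h4, h5, h3⟩
    · rintro ⟨h1, h2, n, h4, h5, h3⟩
      exact ⟨h1, h2, h3, n, by exact_mod_cast h4, h5, trivial⟩
  have e2 : pairs A B C q u r s₁ s₂ s₃ s₄ X (fun n d d' =>
      stat t c E τ₁ (A * n + β) d d' = b₁ ∧ stat t c g τ₂ (A * n + β) d d' = b₂) =
      (Pool.Agent.W78.EG.SV (A : ℤ) (B : ℤ) (C : ℤ) q u r s₁ s₂ s₃ s₄ X).filter (fun p =>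
        Pool.Agent.V11296.CZ.HC t c (Pool.Agent.V11296.DA.cmb E g) (τ₁, τ₂) (A * p.1, p.2) =
        (Pool.Agent.V11296.EA.kap t c A β E τ₁ + b₁,
          Pool.Agent.V11296.EA.kap t c A β g τ₂ + b₂)) := by
    have key : ∀ (p : ℕ × ℕ) (n : ℕ), p.1 * p.2 = A * n ^ 2 + B * n + C →
        (Pool.Agent.V11296.CZ.HC t c (Pool.Agent.V11296.DA.cmb E g) (τ₁, τ₂) (A * p.1, p.2) =
        (Pool.Agent.V11296.EA.kap t c A β E τ₁ + b₁,
          Pool.Agent.V11296.EA.kap t c A β g τ₂ + b₂) ↔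
        (stat t c E τ₁ (A * n + β) p.1 p.2 = b₁ ∧ stat t c g τ₂ (A * n + β) p.1 p.2 = b₂)) := by
      intro p n hn
      rw [Pool.Agent.V11296.DA.HC_cmb, Pool.Agent.V11296.EA.HC_f hF hA hβ hdisc E hn,
        Pool.Agent.V11296.EA.HC_f hF hA hβ hdisc g hn, Prod.mk.injEq, add_right_inj,
        add_right_inj]
      rfl
    ext p
    unfold pairs Pool.Agent.W78.EG.SV
    rw [mem_filter, mem_filter, mem_filter, and_assoc]
    refine and_congr_right fun _ => ?_
    constructor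
    · rintro ⟨h1, h2, h3, n, h4, h5, h6⟩
      exact ⟨⟨h1, h2, n, by exact_mod_cast h4, h5, h3⟩, (key p n h4).2 h6⟩
    · rintro ⟨⟨h1, h2, n, h4, h5, h3⟩, h6⟩
      have h4' : p.1 * p.2 = A * n ^ 2 + B * n + C := by exact_mod_cast h4
      exact ⟨h1, h2, h3, n, h4', h5, (key p n h4').1 h6⟩
  rw [e1, e2]
  push_cast
  congr!

end Pool.Agent.Results.MP_d639b3_nt.FunctionsOfPrimeElements
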